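import Pool.Agent.H22.ARB.Edm
import Pool.Agent.H22.ARB.Grow

/-!
# Edmonds' theorem inside a set of vertices, and gluing of branchings
-/

set_option autoImplicit false

namespace ARB

open Finset

section Sub

variable {V I : Type} [Fintype V] [DecidableEq V] [Fintype I] [DecidableEq I]

omit [Fintype V] [Fintype I] in
/-- Edmonds' theorem for the subdigraph spanned by `M`: if for every nonempty `X ⊆ M` the number of
root sets that miss `X` is at most the number of elements of `J` from `M ∖ X` to `X`, then there are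
pairwise disjoint branchings in `J[M]` with the root sets `R i`. -/
theorem edm_sub (tl hd : I → V) (J : Finset I) (M : Finset V) (m : ℕ) (R : Fin m → Finset V)
    (hR : ∀ i, (R i).Nonempty) (hRM : ∀ i, R i ⊆ M)
    (hc : ∀ X : Finset V, X.Nonempty → X ⊆ M →
      (univ.filter (fun i => Disjoint (R i) X)).card ≤
        (J.filter (fun e => tl e ∈ M ∧ tl e ∉ X ∧ hd e ∈ X)).card) :
    ∃ F : Fin m → Finset I, (∀ i, F i ⊆ J) ∧ (∀ i, ∀ e ∈ F i, tl e ∈ M ∧ hd e ∈ M) ∧
      (∀ i j, i ≠ j → Disjoint (F i) (F j)) ∧ ∀ i, IsBr tl hd (F i) (R i) M := by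
  classical
  let J' : Finset I := J.filter (fun e => tl e ∈ M ∧ hd e ∈ M)
  have hJ' : ∀ e, e ∈ J' → tl e ∈ M ∧ hd e ∈ M := fun e he => (mem_filter.mp he).2
  let tl' : {e // e ∈ J'} → {x // x ∈ M} := fun e => ⟨tl e.1, (hJ' e.1 e.2).1⟩
  let hd' : {e // e ∈ J'} → {x // x ∈ M} := fun e => ⟨hd e.1, (hJ' e.1 e.2).2⟩
  let R' : Fin m → Finset {x // x ∈ M} := fun i => univ.filter (fun x => x.1 ∈ R i)
  have hR' : ∀ i, (R' i).Nonempty := by
    intro i
    obtain ⟨x, hx⟩ := hR i
    exact ⟨⟨x, hRM i hx⟩, mem_filter.mpr ⟨mem_univ _, hx⟩⟩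
  have key := sEdm sGrow {x // x ∈ M} {e // e ∈ J'} tl' hd' univ m R' hR' ?_
  · obtain ⟨F', -, hdis, hbr⟩ := key
    refine ⟨fun i => (F' i).map (Function.Embedding.subtype _), ?_, ?_, ?_, ?_⟩
    · intro i e he
      rw [mem_map] at he
      obtain ⟨e', -, rfl⟩ := he
      exact (mem_filter.mp e'.2).1
    · intro i e he
      rw [mem_map] at he
      obtain ⟨e', -, rfl⟩ := he
      exact (mem_filter.mp e'.2).2
    · intro i j hij
      rw [Finset.disjoint_left]
      intro e he he'
      rw [mem_map] at he he'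
      obtain ⟨e1, h1, rfl⟩ := he
      obtain ⟨e2, h2, h12⟩ := he'
      have h3 : e2 = e1 := Subtype.ext h12
      subst h3
      exact (Finset.disjoint_left.mp (hdis i j hij)) h1 h2
    · intro i
      obtain ⟨h1, h2, h3, h4⟩ := hbr i
      refine ⟨hRM i, ?_, ?_, ?_⟩
      · intro e he
        rw [mem_map] at he
        obtain ⟨e', he', rfl⟩ := he
        have h5 := h2 e' he'
        refine ⟨(hJ' e'.1 e'.2).1, (hJ' e'.1 e'.2).2, ?_⟩
        intro h6
        exact h5.2.2 (mem_filter.mpr ⟨mem_univ _, h6⟩)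
      · intro e he e2 he2 hh
        rw [mem_map] at he he2
        obtain ⟨e', he', rfl⟩ := he
        obtain ⟨e2', he2', rfl⟩ := he2
        have h5 : e' = e2' := h3 e' he' e2' he2' (Subtype.ext hh)
        rw [h5]
      · intro v hv
        obtain ⟨r, hr, hrv⟩ := h4 ⟨v, hv⟩ (mem_univ _)
        refine ⟨r.1, (mem_filter.mp hr).2, ?_⟩
        refine Relation.ReflTransGen.lift (fun x : {x // x ∈ M} => x.1) ?_ _ _ hrv
        rintro a b ⟨e, he, h5, h6⟩
        exact ⟨e.1, mem_map.mpr ⟨e, he, rfl⟩, congrArg Subtype.val h5, congrArg Subtype.val h6⟩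
  · intro X' hX'
    let X : Finset V := X'.map (Function.Embedding.subtype _)
    have hmX : ∀ x : {x // x ∈ M}, x.1 ∈ X ↔ x ∈ X' := by
      intro x
      constructor
      · intro h
        rw [mem_map] at h
        obtain ⟨y, hy, hyx⟩ := h
        have : y = x := Subtype.ext hyx
        rwa [← this]
      · intro h
        exact mem_map.mpr ⟨x, h, rfl⟩
    have hXM : X ⊆ M := by
      intro x hx
      rw [mem_map] at hx
      obtain ⟨y, -, rfl⟩ := hx
      exact y.2
    have hXn : X.Nonempty := hX'.map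
    refine le_trans (card_le_card ?_) (le_trans (hc X hXn hXM) ?_)
    · intro i hi
      rw [mem_filter] at hi ⊢
      refine ⟨mem_univ _, ?_⟩
      rw [Finset.disjoint_left]
      intro x hx hxX
      have h1 : (⟨x, hRM i hx⟩ : {x // x ∈ M}) ∈ R' i := mem_filter.mpr ⟨mem_univ _, hx⟩
      exact (Finset.disjoint_left.mp hi.2) h1 ((hmX ⟨x, hRM i hx⟩).mp hxX)
    · unfold din
      have h1 : ∀ e ∈ J.filter (fun e => tl e ∈ M ∧ tl e ∉ X ∧ hd e ∈ X), e ∈ J' := by
        intro e he
        rw [mem_filter] at he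
        exact mem_filter.mpr ⟨he.1, he.2.1, hXM he.2.2.2⟩
      refine le_trans (le_of_eq ?_) (card_le_card_of_injOn
        (s := (J.filter (fun e => tl e ∈ M ∧ tl e ∉ X ∧ hd e ∈ X)).attach)
        (fun e => (⟨e.1, h1 e.1 e.2⟩ : {e // e ∈ J'})) ?_ ?_)
      · rw [card_attach]
      · intro e _
        have he := e.2
        rw [mem_filter] at he
        rw [mem_coe, mem_filter]
        refine ⟨mem_univ _, ?_, ?_⟩
        · intro h2
          exact he.2.2.1 ((hmX _).mpr h2)
        · exact (hmX _).mp he.2.2.2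
      · intro a _ b _ hab
        have h2 : a.1 = b.1 := congrArg (fun z : {e // e ∈ J'} => z.1) hab
        exact Subtype.ext h2

omit [Fintype V] [Fintype I] in
/-- The case of two root sets, one of them a single vertex (`k = 1`). -/
theorem edm_sub_two (tl hd : I → V) (J : Finset I) (M : Finset V) (h : V) (S : Finset V)
    (hh : h ∈ M) (hS : S.Nonempty) (hSM : S ⊆ M)
    (hc : ∀ X : Finset V, X.Nonempty → X ⊆ M →
      (if h ∈ X then 0 else 1) + (if Disjoint S X then 1 else 0) ≤
        (J.filter (fun e => tl e ∈ M ∧ tl e ∉ X ∧ hd e ∈ X)).card) :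
    ∃ T F : Finset I, T ⊆ J ∧ F ⊆ J ∧ (∀ e ∈ T, tl e ∈ M ∧ hd e ∈ M) ∧
      (∀ e ∈ F, tl e ∈ M ∧ hd e ∈ M) ∧ Disjoint T F ∧
      IsBr tl hd T {h} M ∧ IsBr tl hd F S M := by
  classical
  let R : Fin 2 → Finset V := fun i => if i = 0 then {h} else S
  have h0 : R 0 = {h} := rfl
  have h1 : R 1 = S := rfl
  have hR : ∀ i, (R i).Nonempty := by
    intro i
    fin_cases i
    · exact singleton_nonempty h
    · exact hS
  have hRM : ∀ i, R i ⊆ M := by
    intro i
    fin_cases i
    · exact singleton_subset_iff.mpr hh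
    · exact hSM
  obtain ⟨F, hFJ, hFM, hdis, hbr⟩ := edm_sub tl hd J M 2 R hR hRM (by
    intro X hX hXM
    refine le_trans (le_of_eq ?_) (hc X hX hXM)
    rw [card_filter, Fin.sum_univ_two, h0, h1]
    congr 1
    by_cases hx : h ∈ X
    · simp [hx]
    · simp [hx])
  exact ⟨F 0, F 1, hFJ 0, hFJ 1, hFM 0, hFM 1, hdis 0 1 (by decide), hbr 0, hbr 1⟩

end Sub

section Glue

variable {V I : Type} [Fintype V] [DecidableEq V] [Fintype I] [DecidableEq I]

omit [Fintype V] [DecidableEq V] [Fintype I] [DecidableEq I] in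
theorem stepRel_mono {tl hd : I → V} {F F' : Finset I} (h : F ⊆ F') {x y : V}
    (hxy : Relation.ReflTransGen (stepRel tl hd F) x y) :
    Relation.ReflTransGen (stepRel tl hd F') x y := by
  refine Relation.ReflTransGen.mono ?_ _ _ hxy
  rintro a b ⟨e, he, h1, h2⟩
  exact ⟨e, h he, h1, h2⟩

omit [Fintype V] [Fintype I] [DecidableEq I] in
/-- a walk from `r` to `v ∉ Z` avoids `Z`, or has a last vertex in `Z`. -/
theorem last_exit {tl hd : I → V} {F : Finset I} (Z : Finset V) {r v : V}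
    (h : Relation.ReflTransGen (stepRel tl hd F) r v) :
    (r ∉ Z ∧ Relation.ReflTransGen (stepRel tl hd (F.filter (fun e => hd e ∉ Z))) r v) ∨
    ∃ z ∈ Z, Relation.ReflTransGen (stepRel tl hd (F.filter (fun e => hd e ∉ Z))) z v := by
  classical
  induction h with
  | refl =>
    by_cases hr : r ∈ Z
    · exact Or.inr ⟨r, hr, Relation.ReflTransGen.refl⟩
    · exact Or.inl ⟨hr, Relation.ReflTransGen.refl⟩
  | @tail b c hab hbc ih =>
    by_cases hc : c ∈ Z
    · exact Or.inr ⟨c, hc, Relation.ReflTransGen.refl⟩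
    · obtain ⟨e, he, h1, h2⟩ := hbc
      have hst : stepRel tl hd (F.filter (fun e => hd e ∉ Z)) b c := by
        refine ⟨e, mem_filter.mpr ⟨he, ?_⟩, h1, h2⟩
        rw [h2]
        exact hc
      rcases ih with ⟨hr, ih⟩ | ⟨z, hz, ih⟩
      · exact Or.inl ⟨hr, ih.tail hst⟩
      · exact Or.inr ⟨z, hz, ih.tail hst⟩

/-- Gluing: inside `Z` the branching `F` is replaced by `F'` (with root set `S`); the elements of
`G` enter `Z` at vertices of `S`, and their tails are reached by `F` from roots outside `Z` without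
entering `Z`.  The new root set consists of the roots outside `Z` and the members of `S` that are not
heads of elements of `G`. -/
theorem br_glue {tl hd : I → V} {F F' G : Finset I} {R S Z : Finset V}
    (hF : IsBr tl hd F R univ) (hF' : IsBr tl hd F' S Z)
    (hG : ∀ g ∈ G, hd g ∈ S)
    (hGi : ∀ g ∈ G, ∀ g' ∈ G, hd g = hd g' → g = g')
    (hGr : ∀ g ∈ G, ∃ r ∈ R, r ∉ Z ∧
      Relation.ReflTransGen (stepRel tl hd (F.filter (fun e => hd e ∉ Z))) r (tl g)) :
    IsBr tl hd (F.filter (fun e => hd e ∉ Z) ∪ (G ∪ F')) (R \ Z ∪ S \ G.image hd) univ := by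
  classical
  obtain ⟨-, f2, f3, f4⟩ := hF
  obtain ⟨g1, g2, g3, g4⟩ := hF'
  have hsub1 : F.filter (fun e => hd e ∉ Z) ⊆ F.filter (fun e => hd e ∉ Z) ∪ (G ∪ F') :=
    subset_union_left
  have hsub2 : F' ⊆ F.filter (fun e => hd e ∉ Z) ∪ (G ∪ F') :=
    subset_union_right.trans subset_union_right
  -- every vertex of `Z` is reached
  have hZ : ∀ z ∈ Z, ∃ r ∈ R \ Z ∪ S \ G.image hd,
      Relation.ReflTransGen (stepRel tl hd (F.filter (fun e => hd e ∉ Z) ∪ (G ∪ F'))) r z := by
    intro z hz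
    obtain ⟨s, hs, hsz⟩ := g4 z hz
    by_cases hsG : s ∈ G.image hd
    · obtain ⟨g, hg, hgs⟩ := mem_image.mp hsG
      obtain ⟨r, hr, hrZ, hrt⟩ := hGr g hg
      refine ⟨r, mem_union_left _ (mem_sdiff.mpr ⟨hr, hrZ⟩), ?_⟩
      refine ((stepRel_mono hsub1 hrt).tail ?_).trans (stepRel_mono hsub2 hsz)
      exact ⟨g, mem_union_right _ (mem_union_left _ hg), rfl, hgs⟩
    · exact ⟨s, mem_union_right _ (mem_sdiff.mpr ⟨hs, hsG⟩), stepRel_mono hsub2 hsz⟩
  refine ⟨subset_univ _, ?_, ?_, ?_⟩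
  · intro e he
    refine ⟨mem_univ _, mem_univ _, ?_⟩
    intro hr
    rw [mem_union, mem_sdiff, mem_sdiff] at hr
    rw [mem_union, mem_filter, mem_union] at he
    rcases he with ⟨he, heZ⟩ | he | he
    · rcases hr with hr | hr
      · exact (f2 e he).2.2 hr.1
      · exact heZ (g1 hr.1)
    · rcases hr with hr | hr
      · exact hr.2 (g1 (hG e he))
      · exact hr.2 (mem_image_of_mem hd he)
    · rcases hr with hr | hr
      · exact hr.2 (g2 e he).2.1
      · exact (g2 e he).2.2 hr.1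
  · intro e he e' he' hh
    rw [mem_union, mem_filter, mem_union] at he he'
    rcases he with ⟨he, heZ⟩ | he | he
    · rcases he' with ⟨he', heZ'⟩ | he' | he'
      · exact f3 e he e' he' hh
      · exact absurd (g1 (hG e' he')) (hh ▸ heZ)
      · exact absurd (g2 e' he').2.1 (hh ▸ heZ)
    · rcases he' with ⟨he', heZ'⟩ | he' | he'
      · exact absurd (hh ▸ g1 (hG e he)) heZ'
      · exact hGi e he e' he' hh
      · exact absurd (hh ▸ hG e he) (g2 e' he').2.2
    · rcases he' with ⟨he', heZ'⟩ | he' | he'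
      · exact absurd (hh ▸ (g2 e he).2.1) heZ'
      · exact absurd (hh ▸ hG e' he') (g2 e he).2.2
      · exact g3 e he e' he' hh
  · intro v _
    obtain ⟨r, hr, hrv⟩ := f4 v (mem_univ _)
    rcases last_exit Z hrv with ⟨hrZ, h⟩ | ⟨z, hz, h⟩
    · exact ⟨r, mem_union_left _ (mem_sdiff.mpr ⟨hr, hrZ⟩), stepRel_mono hsub1 h⟩
    · obtain ⟨r', hr', hrz⟩ := hZ z hz
      exact ⟨r', hr', hrz.trans (stepRel_mono hsub1 h)⟩

/-- A branching on `M` with root set `S` and the elements outside: special case `G = ∅`, where all of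
`S` becomes roots. -/
theorem br_glue_roots {tl hd : I → V} {F F' : Finset I} {R S Z : Finset V}
    (hF : IsBr tl hd F R univ) (hF' : IsBr tl hd F' S Z) :
    IsBr tl hd (F.filter (fun e => hd e ∉ Z) ∪ F') (R \ Z ∪ S) univ := by
  have h := br_glue (G := ∅) hF hF' (by simp) (by simp) (by simp)
  simpa using h

/-- Gluing a branching on `M` and a branching on the complement: `G` enters `M` from the
complement. -/
theorem br_union {tl hd : I → V} {F F' G : Finset I} {R S M : Finset V}
    (hF : IsBr tl hd F R (univ \ M)) (hF' : IsBr tl hd F' S M)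
    (hG : ∀ g ∈ G, tl g ∉ M ∧ hd g ∈ S)
    (hGi : ∀ g ∈ G, ∀ g' ∈ G, hd g = hd g' → g = g') :
    IsBr tl hd (F ∪ (G ∪ F')) (R ∪ S \ G.image hd) univ := by
  classical
  obtain ⟨f1, f2, f3, f4⟩ := hF
  obtain ⟨g1, g2, g3, g4⟩ := hF'
  have f1' : ∀ r ∈ R, r ∉ M := fun r hr => (mem_sdiff.mp (f1 hr)).2
  have hsub2 : F' ⊆ F ∪ (G ∪ F') := subset_union_right.trans subset_union_right
  refine ⟨subset_univ _, ?_, ?_, ?_⟩
  · intro e he
    refine ⟨mem_univ _, mem_univ _, ?_⟩
    intro hr
    rw [mem_union, mem_sdiff] at hr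
    rw [mem_union, mem_union] at he
    rcases he with he | he | he
    · rcases hr with hr | hr
      · exact (f2 e he).2.2 hr
      · exact (mem_sdiff.mp (f2 e he).2.1).2 (g1 hr.1)
    · rcases hr with hr | hr
      · exact f1' _ hr (g1 (hG e he).2)
      · exact hr.2 (mem_image_of_mem hd he)
    · rcases hr with hr | hr
      · exact f1' _ hr (g2 e he).2.1
      · exact (g2 e he).2.2 hr.1
  · intro e he e' he' hh
    rw [mem_union, mem_union] at he he'
    rcases he with he | he | he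
    · have h1 : hd e ∉ M := (mem_sdiff.mp (f2 e he).2.1).2
      rcases he' with he' | he' | he'
      · exact f3 e he e' he' hh
      · exact absurd (g1 (hG e' he').2) (hh ▸ h1)
      · exact absurd (g2 e' he').2.1 (hh ▸ h1)
    · rcases he' with he' | he' | he'
      · exact absurd (hh ▸ g1 (hG e he).2) (mem_sdiff.mp (f2 e' he').2.1).2
      · exact hGi e he e' he' hh
      · exact absurd (hh ▸ (hG e he).2) (g2 e' he').2.2
    · rcases he' with he' | he' | he'
      · exact absurd (hh ▸ (g2 e he).2.1) (mem_sdiff.mp (f2 e' he').2.1).2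
      · exact absurd (hh ▸ (hG e' he').2) (g2 e he).2.2
      · exact g3 e he e' he' hh
  · intro v _
    by_cases hv : v ∈ M
    · obtain ⟨s, hs, hsv⟩ := g4 v hv
      by_cases hsG : s ∈ G.image hd
      · obtain ⟨g, hg, hgs⟩ := mem_image.mp hsG
        obtain ⟨r, hr, hrt⟩ := f4 (tl g) (mem_sdiff.mpr ⟨mem_univ _, (hG g hg).1⟩)
        refine ⟨r, mem_union_left _ hr, ?_⟩
        refine ((stepRel_mono subset_union_left hrt).tail ?_).trans (stepRel_mono hsub2 hsv)
        exact ⟨g, mem_union_right _ (mem_union_left _ hg), rfl, hgs⟩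
      · exact ⟨s, mem_union_right _ (mem_sdiff.mpr ⟨hs, hsG⟩), stepRel_mono hsub2 hsv⟩
    · obtain ⟨r, hr, hrv⟩ := f4 v (mem_sdiff.mpr ⟨mem_univ _, hv⟩)
      exact ⟨r, mem_union_left _ hr, stepRel_mono subset_union_left hrv⟩

end Glue

end ARB
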